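import Pool.Agent.R260.LrB

set_option autoImplicit false

open Pool.Agent.R260.Lr

namespace Pool.Agent.Results.MP_b81f9a_an.ConditionNotNecessary

/-- The condition `(C_{α,β,γ})`. -/
def CondC (α β γ : ℝ) : Prop := ∀ z : ℝ, 0 < z → z < 1 → z + γ * (z ^ (β - α) - z ^ β) ≤ 1

/-- For `α = 1/72`, `β = 1/56`, `γ = 2` the function `x ↦ F(-x)` is completely monotone on `(0,∞)`
but the condition `(C_{α,β,γ})` fails. -/
theorem result :
    ∃ α β γ : ℝ, 0 < α ∧ 0 < β ∧ 0 < γ ∧ IsCM (fun x => leRoy α β γ (-x)) ∧ ¬ CondC α β γ := by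
  refine ⟨1/72, 1/56, 2, by norm_num, by norm_num, by norm_num, cm_main, ?_⟩
  intro h
  have h1 := h ((4/5) ^ 504) (by positivity) (pow_lt_one₀ (by norm_num) (by norm_num) (by norm_num))
  have e1 : (((4:ℝ)/5) ^ 504) ^ ((1:ℝ)/56 - 1/72) = (4/5)^2 := by
    rw [← Real.rpow_natCast, ← Real.rpow_mul (by norm_num)]
    norm_num
  have e2 : (((4:ℝ)/5) ^ 504) ^ ((1:ℝ)/56) = (4/5)^9 := by
    rw [← Real.rpow_natCast, ← Real.rpow_mul (by norm_num)]
    norm_num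
  rw [e1, e2] at h1
  have h2 : (0:ℝ) < (4/5) ^ 504 := by positivity
  have h3 : (1:ℝ) < 2 * ((4/5)^2 - (4/5)^9) := by norm_num
  exact absurd h1 (not_le.mpr (lt_trans h3 (lt_add_of_pos_left _ h2)))

end Pool.Agent.Results.MP_b81f9a_an.ConditionNotNecessary
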